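import Pool.Agent.H17.DP.Finp

/-!
# Dade's alternating sums of one block: the tower of the wreath products with a group of order `p`

Let `p` be a prime number (`p = 2` is allowed), `F` an algebraically closed field of characteristic `p`
and `red` a ring homomorphism from the algebraic integers to `F`. A `p`-block `B` of a finite group
`G` is (the central character of) a block of `F[G]`: an algebra homomorphism from the centre of `F[G]`
(the class functions `G → F` with the convolution product) to `F`. An irreducible character `θ` of a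
subgroup `H` satisfies `bl(θ)^G = B` if `B` is the composition of the restriction of class functions
from `G` to `H` with the reduction of the central character of `θ`.

Let `B` be a block of positive defect of `G` and `C` a group of order `p`. There is exactly one block
`B'` of `G ≀ C` above `B ⊗ ⋯ ⊗ B`; let `B = B_0`, `B_1 = B'`, `B_2 = B_1'`, ... be the blocks of the
iterated wreath products. The proof determines the generating function `P'` of the sums `S_d(B')`,
`p P'(x) = P(x)^p - P(x^p) + p ^ 2 x (P(x^p) - P(x))`. The complexes of `p`-subgroups of `G ≀ C` fixed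
by a subgroup are computed (now there are complements of the base group among the `p`-subgroups); the
stabilisers `G_σ × C` of the complements contribute the characters `θ` of `G_σ` with
`ω_θ(f ^ p) = B(f) ^ p`, which are Galois conjugates of the characters with `bl(θ)^G = B`. If `p ^ k`
divides all coefficients of `P` and `k ≥ 1`, then `p ^ (k + 1)` divides `p P' + P(x^p)`. So the `p`-adic
valuation of the set of the sums drops by exactly one in each step, as long as it is positive.
-/

set_option autoImplicit false

noncomputable section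

namespace Pool.Agent.Results.MP_3f89b9_al.OneBlockTower

open Pool.Agent.Y63.KR (alternatingSum chainSetoid chainStabilizer)
open Pool.Agent.Y63.NV (IsClassFun IsBlock centralValue)
open Pool.Agent.Y63.AWC (IsIrreducibleCharacter)

variable {F : Type} [Field F]

/-- `k^d(B_σ)` for `G_σ = H`: the number of the irreducible characters `θ` of the subgroup `H` of
`p`-defect `d` with `bl(θ)^G = B`. -/
def kB (p : ℕ) (red : integralClosure ℤ ℂ →+* F) {G : Type} [Group G] (B : (G → F) → F) (d : ℕ)
    (H : Subgroup G) : ℕ :=
  Nat.card {θ : H → ℂ // (IsIrreducibleCharacter θ ∧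
      ∀ f : G → F, IsClassFun f → centralValue red θ (fun x => f x) = B f) ∧
    ∃ n : ℕ, θ 1 = (n : ℂ) ∧ n.factorization p + d = (Nat.card H).factorization p}

/-- Dade's alternating sum `S_d(B) = ∑_σ (-1)^|σ| k^d(B_σ)` over representatives `σ` of the
`G`-classes of chains of nontrivial `p`-subgroups of `G`, the empty chain included. -/
def S (p : ℕ) (red : integralClosure ℤ ℂ →+* F) {G : Type} [Group G] (B : (G → F) → F) (d : ℕ) : ℤ :=
  alternatingSum p G (fun H => (kB p red B d H : ℤ))

/-- `T_d(B) = ∑_σ k^d(B_σ)` over the same representatives: the number of the `G`-classes of pairs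
`(σ, θ)` of a chain `σ` and a character `θ` of `G_σ` of `p`-defect `d` with `bl(θ)^G = B`. -/
def T (p : ℕ) (red : integralClosure ℤ ℂ →+* F) {G : Type} [Group G] (B : (G → F) → F) (d : ℕ) : ℕ :=
  ∑ᶠ c : Quotient (chainSetoid p G), kB p red B d (chainStabilizer c.out.1)

/-- The generating polynomial `∑_d S_d(B) x^d` (the terms with `d ≥ |G|` vanish). -/
def P (p : ℕ) (red : integralClosure ℤ ℂ →+* F) {G : Type} [Group G] (B : (G → F) → F) :
    Polynomial ℤ :=
  ∑ d ∈ Finset.range (Nat.card G), Polynomial.C (S p red B d) * Polynomial.X ^ d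

/-- `B` is a block of positive defect: all its ordinary irreducible characters have positive
`p`-defect. -/
def PositiveDefect (p : ℕ) (red : integralClosure ℤ ℂ →+* F) {G : Type} [Group G]
    (B : (G → F) → F) : Prop :=
  ∀ χ : G → ℂ, IsIrreducibleCharacter χ →
    (∀ f : G → F, IsClassFun f → centralValue red χ f = B f) →
    ∃ n : ℕ, χ 1 = (n : ℂ) ∧ n.factorization p < (Nat.card G).factorization p

open Classical in
/-- `B'` is a block of `G ≀ C` above `B ⊗ ⋯ ⊗ B`. -/
def OverWr {G C : Type} [Group G] [Group C] [Fintype C] (B : (G → F) → F)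
    (B' : (RegularWreathProduct G C → F) → F) : Prop :=
  ∀ f : G → F, IsClassFun f →
    B' (fun s => if s.right = 1 then ∏ c, f (s.left c) else 0) = B f ^ Fintype.card C

/-- `Tower C B n H B₁`: the group `H` is the `n`-fold iterated wreath product
`(⋯(G ≀ C) ≀ ⋯) ≀ C` and `B₁` is the block of `H` over `B` obtained by `n` steps of the kind
`(G, B) ↦ (G ≀ C, B')`, `B'` a block above `B ⊗ ⋯ ⊗ B`. -/
inductive Tower (C : Type) [Group C] [Fintype C] {G : Type} [i : Group G] (B : (G → F) → F) :
    ℕ → (H : Type) → Group H → ((H → F) → F) → Prop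
  | zero : Tower C B 0 G i B
  | succ {n : ℕ} {H : Type} [j : Group H] {B₁ : (H → F) → F}
      {B₂ : (RegularWreathProduct H C → F) → F} :
      Tower C B n H j B₁ → IsBlock B₂ → OverWr B₁ B₂ →
        Tower C B (n + 1) (RegularWreathProduct H C) inferInstance B₂

theorem kB_eq (p : ℕ) (red : integralClosure ℤ ℂ →+* F) {G : Type} [Group G] (B : (G → F) → F)
    (d : ℕ) (H : Subgroup G) : kB p red B d H =
      Pool.Agent.Q90.WR.anum p d
        (Pool.Agent.E8helper60.DD.IndB red B (Subtype.val : H → G)) := by
  unfold kB Pool.Agent.Q90.WR.anum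
  refine Nat.card_congr (Equiv.subtypeEquivRight fun θ => ?_)
  rw [Pool.Agent.E8helper60.DD.mem_IndB]

theorem S_eq (p : ℕ) (red : integralClosure ℤ ℂ →+* F) {G : Type} [Group G] (B : (G → F) → F)
    (d : ℕ) : S p red B d = Pool.Agent.E8helper60.DD.Sd p red B d := by
  unfold S Pool.Agent.E8helper60.DD.Sd
  simp only [kB_eq]

theorem P_eq (p : ℕ) (red : integralClosure ℤ ℂ →+* F) {G : Type} [Group G] [Finite G]
    (B : (G → F) → F) : P p red B = Pool.Agent.E8helper60.DD.Pz p red B := by
  ext d
  rw [Pool.Agent.E8helper60.DD.Pz_coeff]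
  unfold P
  rw [Polynomial.finsetSum_coeff]
  simp only [Polynomial.coeff_C_mul_X_pow, S_eq]
  rw [Finset.sum_ite_eq]
  split_ifs with h
  · rfl
  · rw [Finset.mem_range, not_lt] at h
    refine (Pool.Agent.E8helper60.DD.Sd_zero_of_lt red B (lt_of_lt_of_le ?_ h)).symm
    exact Nat.factorization_lt p Nat.card_pos.ne'

theorem tower_iff {C : Type} [Group C] [Fintype C] {G : Type} [i : Group G] {B : (G → F) → F} {n : ℕ}
    {H : Type} {j : Group H} {B₁ : (H → F) → F} :
    Tower C B n H j B₁ ↔ Pool.Agent.H17.DP.Tow C B n H j B₁ := by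
  constructor
  · intro h
    induction h with
    | zero => exact Pool.Agent.H17.DP.Tow.zero
    | succ _ h2 h3 ih => exact Pool.Agent.H17.DP.Tow.succ ih h2 h3
  · intro h
    induction h with
    | zero => exact Tower.zero
    | succ _ h2 h3 ih => exact Tower.succ ih h2 h3

/-- modulo two the signs do not matter -/
theorem S_even (p : ℕ) (red : integralClosure ℤ ℂ →+* F) {G : Type} [Group G] [Finite G]
    (B : (G → F) → F) (d : ℕ) : (2 : ℤ) ∣ S p red B d ↔ Even (T p red B d) := by
  have hfin : Finite (Quotient (chainSetoid p G)) := inferInstance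
  have : Fintype (Quotient (chainSetoid p G)) := Fintype.ofFinite _
  have h1 : (2 : ℤ) ∣ S p red B d - (T p red B d : ℤ) := by
    unfold S T alternatingSum
    rw [finsum_eq_sum_of_fintype, finsum_eq_sum_of_fintype]
    push_cast
    rw [← Finset.sum_sub_distrib]
    refine Finset.dvd_sum fun c _ => ?_
    rcases neg_one_pow_eq_or ℤ c.out.1.ncard with h | h
    · rw [h, one_mul, sub_self]
      exact dvd_zero _
    · rw [h]
      exact ⟨-(kB p red B d (chainStabilizer c.out.1) : ℤ), by ring⟩
  rw [even_iff_two_dvd, ← Int.natCast_dvd_natCast, Nat.cast_ofNat]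
  exact (dvd_iff_dvd_of_dvd_sub h1)

/-- **One block and its tower.** Let `B` be a block of positive defect of the finite group `G` and `C` a
group of order `p`.
(1) There is exactly one block `B'` of `G ≀ C` above `B ⊗ ⋯ ⊗ B`, it has positive defect, and the
generating polynomials of the alternating sums satisfy
`p P(B')(x) = P(B)(x)^p - P(B)(x^p) + p ^ 2 x (P(B)(x^p) - P(B)(x))`.
(2) For every `a`, `p ^ a` divides all the sums `S_d(B)` if and only if `p` divides all the sums
`S_d(B_n)` for the blocks `B_n` of the first `a` levels `n = 0, ..., a - 1` of the tower of the iterated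
wreath products with `C`.
(3) `S_d(B) = 0` for all `d` if and only if `p` divides all the sums of all levels of the tower. If
`|S_d(B)| < p ^ a` for all `d`, the first `a` levels suffice.
(4) Let `p = 2`. Then `S_d(B) = 0` for all `d` if and only if for all levels `n` and all `d` the number
`T_d(B_n)` of the classes of pairs `(σ, θ)`, `θ` of defect `d` with `bl(θ)^G = B_n`, is even. -/
theorem result (p : ℕ) [Fact p.Prime] (F : Type) [Field F] [IsAlgClosed F] [CharP F p]
    (red : integralClosure ℤ ℂ →+* F) (C : Type) [Group C] [Fintype C] (hC : Nat.card C = p)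
    (G : Type) [Group G] [Finite G] (B : (G → F) → F) (hB : IsBlock B)
    (hpos : PositiveDefect p red B) :
    (∃ B' : (RegularWreathProduct G C → F) → F, IsBlock B' ∧ OverWr B B' ∧ PositiveDefect p red B' ∧
      (∀ B'' : (RegularWreathProduct G C → F) → F, IsBlock B'' → OverWr B B'' →
        ∀ f : RegularWreathProduct G C → F, IsClassFun f → B'' f = B' f) ∧
      (p : Polynomial ℤ) * P p red B' =
        P p red B ^ p - Polynomial.expand ℤ p (P p red B) +
          (p : Polynomial ℤ) ^ 2 * (Polynomial.X *
            (Polynomial.expand ℤ p (P p red B) - P p red B))) ∧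
    (∀ a : ℕ, (∀ d, ((p : ℤ) ^ a) ∣ S p red B d) ↔
      ∀ n, n < a → ∀ (H : Type) [j : Group H] (B₁ : (H → F) → F), Tower C B n H j B₁ →
        ∀ d, (p : ℤ) ∣ S p red B₁ d) ∧
    ((∀ d, S p red B d = 0) ↔
      ∀ (n : ℕ) (H : Type) [j : Group H] (B₁ : (H → F) → F), Tower C B n H j B₁ →
        ∀ d, (p : ℤ) ∣ S p red B₁ d) ∧
    (∀ a : ℕ, (∀ d, |S p red B d| < (p : ℤ) ^ a) → ((∀ d, S p red B d = 0) ↔
      ∀ n, n < a → ∀ (H : Type) [j : Group H] (B₁ : (H → F) → F), Tower C B n H j B₁ →
        ∀ d, (p : ℤ) ∣ S p red B₁ d)) ∧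
    (p = 2 → ((∀ d, S p red B d = 0) ↔
      ∀ (n : ℕ) (H : Type) [j : Group H] (B₁ : (H → F) → F), Tower C B n H j B₁ →
        ∀ d, Even (T p red B₁ d))) := by
  have hp : p.Prime := Fact.out
  have key : ∀ a : ℕ, (∀ d, ((p : ℤ) ^ a) ∣ S p red B d) ↔
      ∀ n, n < a → ∀ (H : Type) [j : Group H] (B₁ : (H → F) → F), Tower C B n H j B₁ →
        ∀ d, (p : ℤ) ∣ S p red B₁ d := by
    intro a
    simp only [S_eq, tower_iff]
    exact Pool.Agent.H17.DP.tower hC a hB hpos
  have hall : (∀ d, S p red B d = 0) ↔
      ∀ (n : ℕ) (H : Type) [j : Group H] (B₁ : (H → F) → F), Tower C B n H j B₁ →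
        ∀ d, (p : ℤ) ∣ S p red B₁ d := by
    constructor
    · intro h n
      exact (key (n + 1)).1 (fun d => by rw [h d]; exact dvd_zero _) n (Nat.lt_succ_self n)
    · intro h d
      by_contra hne
      have h3 := (Int.finiteMultiplicity_iff (a := (p : ℤ)) (b := S p red B d)).2
        ⟨by rw [Int.natAbs_natCast]; exact hp.one_lt.ne', hne⟩
      obtain ⟨n, hn⟩ := h3
      exact hn ((key (n + 1)).2 (fun m _ => h m) d)
  refine ⟨?_, key, hall, fun a ha => ⟨fun h n _ => (hall.1 h n), fun h d => ?_⟩, fun hp2 => ?_⟩
  · obtain ⟨χ, h1, h2⟩ := Pool.Agent.E8helper46.AW.exists_char (p := p) red hB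
    obtain ⟨χ', -, h3, h4⟩ := Pool.Agent.H17.DP.exists_overW' red (C := C) hp hC h1 h2
    refine ⟨_, h3, h4, Pool.Agent.H17.DP.pos_wrp red hC hB hpos h4, fun B'' h5 h6 f hf =>
      Pool.Agent.H17.DP.overW_unique' (p := p) red hp hC hB hpos h5 h3 h6 h4 f hf, ?_⟩
    rw [P_eq, P_eq]
    exact Pool.Agent.H17.DP.Pz_wrp (p := p) red hC hB hpos h3 h4
  · exact Int.eq_zero_of_abs_lt_dvd ((key a).2 h d) (ha d)
  · rw [hall]
    constructor
    · intro h n H j B₁ hT d
      have hfin := (Pool.Agent.H17.DP.Tow.basic hC hB hpos (tower_iff.1 hT)).1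
      rw [← S_even]
      have h1 := h n H B₁ hT d
      rw [hp2] at h1
      subst hp2
      exact h1
    · intro h n H j B₁ hT d
      have hfin := (Pool.Agent.H17.DP.Tow.basic hC hB hpos (tower_iff.1 hT)).1
      have h1 := (S_even p red B₁ d).2 (h n H B₁ hT d)
      subst hp2
      exact h1

end Pool.Agent.Results.MP_3f89b9_al.OneBlockTower

/- (taken out of the hand-ins of MP_3f89b9_al on Nov 30 to make room; its claim file was)
Proves: Let p be prime, |C|=p, B a block of positive defect of a finite group G. There is exactly one block B' of G≀C above B⊗…⊗B, of positive defect, and pP_{B'}(x)=P_B(x)^p-P_B(x^p)+p^2x(P_B(x^p)-P_B(x)) for P_B=∑S_d(B)x^d; for all a, p^a | S_d(B) for all d iff p | S_d(B_n) for all d, n<a, B_n the blocks of the iterated wreath products; so S_d(B)=0 for all d iff p | S_d(B_n) for all n,d (n<a suffices if all |S_d(B)|<p^a); for p=2 iff all T_d(B_n) are even.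
Definitions: kB: number of θ∈Irr(H) of p-defect d with bl(θ)^G=B (blocks as central characters over alg. closed F, char p); S: ∑(-1)^|σ|k^d(B_σ) over classes of chains of nontrivial p-subgroups, empty chain included; T: the same sum without signs (number of classes of pairs (σ,θ)); P: ∑S_d x^d; PositiveDefect: all characters of B have positive defect; OverWr: B' lies over B⊗…⊗B; Tower C B n H B₁: (H,B₁) arises from (G,B) by n steps (G,B)→(G≀C,B').
Relation: Partial result on Q1 (it is Q1 for B if O_p(G)=1): a criterion modulo p for one block at a time. The library's results for one block or class use wreath products with groups of order q≠p (e.g. WeightedSumDecidesH60, ParityDecidesBlocks), where the recursion is different; here q=p.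

-/
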